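import Pool.Agent.Q117.SS.Mex

/-!
# Supersaturation for clique counts in graphs with a given number of edges

For `r ≥ s ≥ 3` and `ε > 0` there are `δ > 0` and `m₀` such that every graph with `m ≥ m₀` edges
and at least `mex_{K_s}(m, K_{r+1}) + ε m^{s/2}` copies of `K_s` contains at least
`δ m^{(r+1)/2}` copies of `K_{r+1}`.
-/

set_option autoImplicit false

namespace Pool.Agent.Results.MP_79ff05_co.CliqueSupersaturation

/-- `k_s(G)`: the number of copies of `K_s` in `G`, that is, of `s`-element vertex sets spanning a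
complete subgraph. -/
noncomputable def cliqueCount {V : Type*} (G : SimpleGraph V) (s : ℕ) : ℕ :=
  {S : Finset V | G.IsNClique s S}.ncard

/-- `mex_{K_s}(m, K_{r+1})`: the maximum of `k_s(G)` over all finite graphs `G` with exactly `m`
edges and without `K_{r+1}`. -/
noncomputable def mex (s r m : ℕ) : ℕ :=
  sSup {a | ∃ (n : ℕ) (G : SimpleGraph (Fin n)), G.edgeSet.ncard = m ∧ G.CliqueFree (r + 1) ∧
    cliqueCount G s = a}

theorem core (s k : ℕ) (hs : 1 ≤ s) (c ε1 γ η β x N b D' Ak As Tk : ℝ) (hc : 0 ≤ c)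
    (hε1 : 0 < ε1) (hγ : 0 < γ) (hη : η = ε1 * γ ^ s) (hx : 0 < x) (hN : 0 < N)
    (hNγ : N * γ ≤ x) (hD0 : 0 ≤ D') (hDx : D' ≤ x) (hTk : 0 < Tk) (hb0 : 0 ≤ b)
    (h3 : (c + 2 * ε1) * x ^ s ≤ As) (h6 : As ≤ c * D' ^ s + (η + Tk * b) * N ^ s)
    (h17 : As ≤ N ^ s) (hβ : β = min 1 (2 * ε1)) (hb : b * N ^ k = Ak) :
    η / Tk * (β * x) ^ k ≤ Ak := by
  have hβ0 : 0 < β := by rw [hβ]; exact lt_min one_pos (by positivity)
  have hβ1 : β ≤ 1 := by rw [hβ]; exact min_le_left _ _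
  have hη0 : 0 < η := by rw [hη]; positivity
  have hxspos : 0 < x ^ s := by positivity
  have h8 : c * D' ^ s ≤ c * x ^ s := by
    apply mul_le_mul_of_nonneg_left _ hc
    exact pow_le_pow_left₀ hD0 hDx _
  have h9 : 2 * ε1 * x ^ s ≤ (η + Tk * b) * N ^ s := by nlinarith
  have h10 : N ^ s * γ ^ s ≤ x ^ s := by
    rw [← mul_pow]
    exact pow_le_pow_left₀ (by positivity) hNγ _
  have h11 : η ≤ Tk * b := by
    have h12 : 2 * ε1 * x ^ s * γ ^ s ≤ (η + Tk * b) * x ^ s := by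
      calc 2 * ε1 * x ^ s * γ ^ s ≤ (η + Tk * b) * N ^ s * γ ^ s := by
            apply mul_le_mul_of_nonneg_right h9 (by positivity)
        _ = (η + Tk * b) * (N ^ s * γ ^ s) := by ring
        _ ≤ (η + Tk * b) * x ^ s := by
          apply mul_le_mul_of_nonneg_left h10
          positivity
    have h13 : 2 * η ≤ η + Tk * b := by
      have : 2 * ε1 * x ^ s * γ ^ s = 2 * η * x ^ s := by rw [hη]; ring
      rw [this] at h12
      exact le_of_mul_le_mul_right h12 hxspos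
    linarith
  have h14 : η / Tk * N ^ k ≤ Ak := by
    rw [← hb]
    apply mul_le_mul_of_nonneg_right _ (by positivity)
    rw [div_le_iff₀ hTk]
    linarith
  have h15 : β * x ≤ N := by
    by_contra hcon
    push Not at hcon
    have h16 : N ^ s < (β * x) ^ s := pow_lt_pow_left₀ hcon hN.le (by omega)
    have h18 : β ^ s ≤ 2 * ε1 := by
      calc β ^ s ≤ β ^ 1 := pow_le_pow_of_le_one hβ0.le hβ1 hs
        _ = β := pow_one _
        _ ≤ 2 * ε1 := by rw [hβ]; exact min_le_right _ _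
    have h19 : (β * x) ^ s ≤ 2 * ε1 * x ^ s := by
      rw [mul_pow]
      exact mul_le_mul_of_nonneg_right h18 hxspos.le
    have h20 : 0 ≤ c * x ^ s := by positivity
    nlinarith
  refine le_trans ?_ h14
  apply mul_le_mul_of_nonneg_left _ (by positivity)
  exact pow_le_pow_left₀ (by positivity) h15 _

open Q117.SS in
theorem key (r s : ℕ) (hs : 3 ≤ s) (hsr : s ≤ r) (ε : ℝ) (hε : 0 < ε) :
    ∃ δ : ℝ, 0 < δ ∧ ∃ m0 : ℕ, ∀ (V : Type) [Fintype V] (G : SimpleGraph V) (m : ℕ), m0 ≤ m →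
      G.edgeSet.ncard = m →
      (Q117.SS.mex s r m : ℝ) + ε * Real.sqrt m ^ s ≤ (cl G s : ℝ) →
      δ * Real.sqrt m ^ (r + 1) ≤ (cl G (r + 1) : ℝ) := by
  set k := r + 1 with hk
  set c := sSup (RR s k) with hc
  have hc0 : 0 ≤ c := by
    obtain ⟨x, hx⟩ := RR_ne s k (by omega)
    have h1 : x ≤ c := le_csSup (RR_bdd s k (by omega)) hx
    obtain ⟨n, H, -, -, rfl⟩ := hx
    exact le_trans (by positivity) h1
  have hspos : (0 : ℝ) < s := by
    have : 0 < s := by omega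
    exact_mod_cast this
  set q : ℝ := Real.sqrt 2 ^ s with hq
  have hq0 : 0 < q := by positivity
  set ε1 : ℝ := s.factorial * ε / (4 * q) with hε1
  have hfac : (0 : ℝ) < s.factorial := by exact_mod_cast Nat.factorial_pos s
  have hε1pos : 0 < ε1 := by positivity
  set γ : ℝ := min 1 (ε1 / s) with hγ
  have hγ0 : 0 < γ := lt_min one_pos (by positivity)
  have hγ1 : γ ≤ 1 := min_le_left _ _
  have hγs : s * γ ^ (s - 2) ≤ ε1 := by
    have h1 : γ ^ (s - 2) ≤ γ := by
      calc γ ^ (s - 2) ≤ γ ^ 1 := pow_le_pow_of_le_one hγ0.le hγ1 (by omega)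
        _ = γ := pow_one _
    have h2 : γ ≤ ε1 / s := min_le_right _ _
    calc s * γ ^ (s - 2) ≤ s * (ε1 / s) := by
          apply mul_le_mul_of_nonneg_left (h1.trans h2) hspos.le
      _ = ε1 := by field_simp
  set η : ℝ := ε1 * γ ^ s with hη
  have hη0 : 0 < η := by positivity
  obtain ⟨T0, hT0⟩ := exists_nat_gt (((s ^ 2 + 2 * s * c) / η) ^ 2)
  obtain ⟨T, hT⟩ : ∃ T : ℕ, T = T0 + 2 * s + k + 1 := ⟨_, rfl⟩
  have hTpos : (0 : ℝ) < T := by
    have : 0 < T := by omega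
    exact_mod_cast this
  have hT1 : (1 : ℝ) ≤ Real.sqrt T := by
    rw [Real.one_le_sqrt]
    have : 1 ≤ T := by omega
    exact_mod_cast this
  have hsT : (0 : ℝ) < Real.sqrt T := by linarith
  have herr : (s : ℝ) ^ 2 / T + 2 * s * c / Real.sqrt T ≤ η := by
    have h1 : (s ^ 2 + 2 * s * c) / η ≤ Real.sqrt T := by
      apply Real.le_sqrt_of_sq_le
      have : (T0 : ℝ) ≤ T := by
        have : T0 ≤ T := by omega
        exact_mod_cast this
      linarith
    rw [div_le_iff₀ hη0] at h1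
    have h2 : (s : ℝ) ^ 2 / T ≤ s ^ 2 / Real.sqrt T := by
      apply div_le_div_of_nonneg_left (by positivity) hsT
      rw [Real.sqrt_le_left hTpos.le]
      have : (1 : ℝ) ≤ T := by
        have : 1 ≤ T := by omega
        exact_mod_cast this
      nlinarith
    have h3 : (s : ℝ) ^ 2 / Real.sqrt T + 2 * s * c / Real.sqrt T ≤ η := by
      rw [← add_div, div_le_iff₀ hsT]
      linarith
    linarith
  obtain ⟨m1, hm1⟩ := mex_lower s r (by omega) (by omega) ε1 hε1pos
  set β : ℝ := min 1 (2 * ε1) with hβ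
  have hβ0 : 0 < β := lt_min one_pos (by positivity)
  have hβ1 : β ≤ 1 := min_le_left _ _
  have hkfac : (0 : ℝ) < k.factorial := by exact_mod_cast Nat.factorial_pos k
  refine ⟨η / T ^ k * β ^ k * Real.sqrt 2 ^ k / k.factorial, by positivity, m1 + 1, ?_⟩
  intro V _ G m hm hGm hmany
  classical
  have hD : D G = 2 * m := by rw [D_eq, hGm]
  have hmpos : 0 < m := by omega
  set x : ℝ := Real.sqrt (D G) with hx
  have hx0 : 0 < x := Real.sqrt_pos.2 (by rw [hD]; exact_mod_cast (by omega : 0 < 2 * m))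
  have hxm : x = Real.sqrt 2 * Real.sqrt m := by
    rw [hx, hD]
    push_cast
    rw [Real.sqrt_mul (by norm_num)]
  have hmex := hm1 m (by omega)
  have hz : Real.sqrt ((2 * m : ℕ) : ℝ) = x := by rw [hx, hD]
  rw [hz] at hmex
  have hA : (A G s : ℝ) = s.factorial * cl G s := by
    rw [A_eq]; push_cast; rfl
  have hxs : ε1 * x ^ s * 4 = s.factorial * (ε * Real.sqrt m ^ s) := by
    rw [hxm, mul_pow, hε1, ← hq]
    field_simp
  have h1 : (c + 3 * ε1) * x ^ s ≤ A G s := by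
    rw [hA]
    have := mul_le_mul_of_nonneg_left hmany hfac.le
    nlinarith
  set W := big G γ with hW
  have h2 := clean G γ hγ0.le s (by omega)
  have h3 : (c + 2 * ε1) * x ^ s ≤ A (ind G W) s := by
    have h4 : s * γ ^ (s - 2) * x ^ s ≤ ε1 * x ^ s := by gcongr
    have h5 : (A G s : ℝ) ≤ A (ind G W) s + s * γ ^ (s - 2) * x ^ s := h2
    nlinarith
  have hxspos : 0 < x ^ s := by positivity
  have hApos : (0 : ℝ) < A (ind G W) s := by
    refine lt_of_lt_of_le ?_ h3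
    positivity
  have hAN := A_le_pow (ind G W) s
  rw [Fintype.card_coe] at hAN
  have hNpos : 0 < W.card := by
    rcases Nat.eq_zero_or_pos W.card with h | h
    · rw [h, zero_pow (by omega)] at hAN
      have : A (ind G W) s = 0 := by omega
      rw [this] at hApos
      simp at hApos
    · exact h
  have : Nonempty W := by
    obtain ⟨w, hw⟩ := Finset.card_pos.1 hNpos
    exact ⟨⟨w, hw⟩⟩
  set N : ℝ := (W.card : ℝ) with hN
  have hN0 : 0 < N := by rw [hN]; exact_mod_cast hNpos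
  have hNγ : N * γ ≤ x := by
    rcases big_card' G γ with h | h
    · exact h
    · rw [hD] at h; omega
  have hsamp := sampling (ind G W) T s k (by omega) c hc0 (by omega) (by omega) (by omega)
    (fun H hH => ext_bound s k (by omega) H hH)
  rw [Fintype.card_coe, ← hN] at hsamp
  set b : ℝ := (A (ind G W) k : ℝ) / N ^ k with hb
  have hb0 : 0 ≤ b := div_nonneg (Nat.cast_nonneg _) (pow_pos hN0 _).le
  set D' : ℝ := Real.sqrt (D (ind G W)) with hD'
  have hD'0 : 0 ≤ D' := Real.sqrt_nonneg _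
  have hD'x : D' ≤ x := by
    apply Real.sqrt_le_sqrt
    exact_mod_cast D_ind_le G W
  have h6 : (A (ind G W) s : ℝ) ≤ c * D' ^ s + (η + T ^ k * b) * N ^ s := by
    have h7 : (A (ind G W) s : ℝ) / N ^ s ≤ c * (D' / N) ^ s + (η + T ^ k * b) := by linarith
    rw [div_le_iff₀ (pow_pos hN0 _)] at h7
    refine h7.trans (le_of_eq ?_)
    rw [div_pow, add_mul]
    congr 1
    rw [mul_assoc, div_mul_cancel₀]
    exact (pow_pos hN0 _).ne'
  have h17 : (A (ind G W) s : ℝ) ≤ N ^ s := by rw [hN]; exact_mod_cast hAN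
  have hbk : b * N ^ k = A (ind G W) k := by
    rw [hb, div_mul_cancel₀]
    exact (pow_pos hN0 _).ne'
  have hcore := core s k (by omega) c ε1 γ η β x N b D' _ _ (T ^ k) hc0 hε1pos hγ0 hη hx0 hN0 hNγ
    hD'0 hD'x (by positivity) hb0 h3 h6 h17 hβ hbk
  have h21 : η / T ^ k * (β * x) ^ k ≤ k.factorial * cl G k := by
    have h22 : (A G k : ℝ) = k.factorial * cl G k := by rw [A_eq]; push_cast; rfl
    rw [← h22]
    have h23 : (A (ind G W) k : ℝ) ≤ A G k := by exact_mod_cast A_ind_le G W k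
    exact hcore.trans h23
  rw [div_mul_eq_mul_div, div_le_iff₀ hkfac]
  have hfin : η / T ^ k * β ^ k * Real.sqrt 2 ^ k * Real.sqrt m ^ k =
      η / T ^ k * (β * x) ^ k := by
    rw [hxm, mul_pow, mul_pow]
    ring
  rw [hfin, mul_comm (cl G k : ℝ)]
  exact h21

lemma rpow_half (m : ℕ) (j : ℕ) : (m : ℝ) ^ ((j : ℝ) / 2) = Real.sqrt m ^ j := by
  rw [Real.sqrt_eq_rpow, ← Real.rpow_natCast, ← Real.rpow_mul (Nat.cast_nonneg _)]
  congr 1
  ring

/-- Supersaturation for clique counts: for all `r ≥ s ≥ 3` and `ε > 0` there exist `δ > 0` and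
`m₀` such that every finite graph `G` with `m ≥ m₀` edges and
`k_s(G) ≥ mex_{K_s}(m, K_{r+1}) + ε m^{s/2}` contains at least `δ m^{(r+1)/2}` copies of
`K_{r+1}`. -/
theorem result : ∀ r s : ℕ, 3 ≤ s → s ≤ r → ∀ ε : ℝ, 0 < ε →
    ∃ δ : ℝ, 0 < δ ∧ ∃ m0 : ℕ, ∀ (V : Type) [Fintype V] (G : SimpleGraph V) (m : ℕ), m0 ≤ m →
      G.edgeSet.ncard = m →
      (mex s r m : ℝ) + ε * (m : ℝ) ^ ((s : ℝ) / 2) ≤ (cliqueCount G s : ℝ) →
      δ * (m : ℝ) ^ (((r : ℝ) + 1) / 2) ≤ (cliqueCount G (r + 1) : ℝ) := by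
  intro r s hs hsr ε hε
  obtain ⟨δ, hδ, m0, h⟩ := key r s hs hsr ε hε
  refine ⟨δ, hδ, m0, fun V _ G m hm hGm hmany => ?_⟩
  rw [rpow_half] at hmany
  have e : (m : ℝ) ^ (((r : ℝ) + 1) / 2) = Real.sqrt m ^ (r + 1) := by
    rw [← rpow_half]
    push_cast
    rfl
  rw [e]
  exact h V G m hm hGm hmany

end Pool.Agent.Results.MP_79ff05_co.CliqueSupersaturation
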